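import Pool.Agent.Helper509.AH.Final
import Pool.Agent.Helper509.SQ.Alg

/-! A square stable Banach space which is not hyperplane stable. -/

set_option autoImplicit false

namespace Pool.Agent.Results.MP_56784f_an.SquareStable

open Pool.Agent.Helper509

theorem result : ∃ (X : Type) (_ : NormedAddCommGroup X) (_ : NormedSpace ℂ X),
    CompleteSpace X ∧ ¬ FiniteDimensional ℂ X ∧ Nonempty ((X × X) ≃L[ℂ] X) ∧
    ∀ m : ℕ, 0 < m → ¬ Nonempty ((X × (Fin m → ℂ)) ≃L[ℂ] X) := by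
  obtain ⟨A, i1, i2, i3, s1, s2, r1, r2, α, h⟩ := SQ.exists_alg
  obtain ⟨Y, j1, j2, j3, φ, -, hs, hφ⟩ := AH.main (A := A)
  exact SQ.exists_space (φ : (Y →L[ℂ] Y) →+* A) hφ hs h

end Pool.Agent.Results.MP_56784f_an.SquareStable
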